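import Pool.Agent.P.MP_843a88_gt.Tree

set_option autoImplicit false

namespace Pool.Agent.P.MP_843a88_gt

open Tr MeasureTheory Set

/-- the closure rule -/
def Cl (y : Tr → Bool) : Prop :=
  ∀ (σ : ℕ → Tr) (n j : ℕ) (B : Finset ℕ), j + n < B.card →
    (∀ b ∈ B, ∃ f : ℕ → ℕ, f j = b ∧ y (node σ f) = true) → y (σ n) = true

theorem isClopen_eval (τ : Tr) : IsClopen {y : Tr → Bool | y τ = true} :=
  (isClopen_discrete {true}).preimage (continuous_apply τ)

theorem isClosed_Cl : IsClosed {y | Cl y} := by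
  have : {y | Cl y} = ⋂ (σ : ℕ → Tr) (n : ℕ) (j : ℕ) (B : Finset ℕ) (_ : j + n < B.card),
      ((⋂ b ∈ B, ⋃ (f : ℕ → ℕ) (_ : f j = b), {y : Tr → Bool | y (node σ f) = true})ᶜ ∪
        {y : Tr → Bool | y (σ n) = true}) := by
    ext y
    simp only [Cl, mem_ofPred_eq, mem_iInter, mem_union, mem_compl_iff, mem_iUnion, exists_prop,
      imp_iff_not_or (a := ∀ b ∈ _, _)]
  rw [this]
  refine isClosed_iInter fun σ => isClosed_iInter fun n => isClosed_iInter fun j =>
    isClosed_iInter fun B => isClosed_iInter fun _ => IsClosed.union ?_ (isClopen_eval _).isClosed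
  exact (isOpen_biInter_finset fun b _ => isOpen_iUnion fun f => isOpen_iUnion fun _ =>
    (isClopen_eval _).isOpen).isClosed_compl

/-- the space -/
abbrev Sp : Type := {y : Tr → Bool // Cl y}

instance : CompactSpace Sp := isCompact_iff_compactSpace.1 isClosed_Cl.isCompact

/-- the point -/
def pt : Sp := ⟨fun _ => true, fun _ _ _ _ _ _ => rfl⟩

theorem basic_nhds {O : Set Sp} (hO : IsOpen O) {y : Sp} (hy : y ∈ O) :
    ∃ F : Finset Tr, ∀ z : Sp, (∀ τ ∈ F, z.1 τ = y.1 τ) → z ∈ O := by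
  obtain ⟨O', h1, rfl⟩ := isOpen_induced_iff.1 hO
  obtain ⟨I, u, h2, h3⟩ := isOpen_pi_iff.1 h1 y.1 hy
  refine ⟨I, fun z hz => h3 fun τ hτ => ?_⟩
  rw [hz τ hτ]
  exact (h2 τ hτ).2

open Classical in
theorem exists_finite_approx (y : Sp) (F : Finset Tr) :
    ∃ z : Sp, {τ | z.1 τ = true}.Finite ∧ ∀ τ ∈ F, z.1 τ = y.1 τ := by
  obtain ⟨H, h1, h2⟩ := exists_sat' F
  refine ⟨⟨fun τ => decide (τ ∈ H) && y.1 τ, ?_⟩, ?_, ?_⟩
  · intro σ n j B hB h
    simp only [Bool.and_eq_true, decide_eq_true_eq] at h ⊢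
    refine ⟨h2 σ n ?_, y.2 σ n j B hB fun b hb => ?_⟩
    · have : B ⊆ (H.filter fun τ => par τ = node σ 0).image fun τ => lab τ j := by
        intro b hb
        obtain ⟨f, rfl, hf, -⟩ := h b hb
        exact Finset.mem_image.2 ⟨node σ f, Finset.mem_filter.2 ⟨hf, rfl⟩, rfl⟩
      have := (Finset.card_le_card this).trans Finset.card_image_le
      omega
    · obtain ⟨f, e1, -, e2⟩ := h b hb
      exact ⟨f, e1, e2⟩
  · refine H.finite_toSet.subset fun τ hτ => ?_
    simp only [mem_ofPred_eq, Bool.and_eq_true, decide_eq_true_eq] at hτ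
    exact hτ.1
  · intro τ hτ
    simp [h1 hτ]

/-- points with finite support -/
def Fin_pts : Set Sp := {z | {τ | z.1 τ = true}.Finite}

theorem pt_notMem : pt ∉ Fin_pts := by
  intro h
  have : {τ | pt.1 τ = true} = univ := by ext; simp [pt]
  rw [Fin_pts, mem_ofPred_eq, this] at h
  exact infinite_univ h

theorem pt_mem_closure : pt ∈ closure Fin_pts := by
  rw [mem_closure_iff]
  intro O hO hx
  obtain ⟨F, hF⟩ := basic_nhds hO hx
  obtain ⟨z, h1, h2⟩ := exists_finite_approx pt F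
  exact ⟨z, hF z h2, h1⟩

open Classical in
/-- countable invariant of a basic open set -/
noncomputable def typ (N : ℕ) (s t : Finset Tr) :
    ℕ × ℕ × Finset (List ℕ) × Finset (List ℕ) × Finset (List ℕ × ℕ × ℕ) :=
  (N, s.card, s.image (res N), t.image (res N),
    (s ×ˢ Finset.range (2 * s.card)).image fun p => (res N (par p.1), p.2, lab p.1 p.2))

open Classical in
theorem union_Cl {N N' : ℕ} {s t s' t' : Finset Tr} (h : typ N s t = typ N' s' t')
    (hi : InjOn (res N) (s.image par : Finset Tr))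
    (c : Cl fun τ => decide (τ ∈ s)) (c' : Cl fun τ => decide (τ ∈ s')) :
    Cl fun τ => decide (τ ∈ s ∪ s') := by
  simp only [typ, Prod.mk.injEq] at h
  obtain ⟨rfl, hc, -, -, hD⟩ := h
  intro σ n j B hB hf
  simp only [decide_eq_true_eq, Finset.mem_union] at hf ⊢
  by_cases hex : ∃ f, node σ f ∈ s
  · obtain ⟨f₀, hf₀⟩ := hex
    left
    have hj : j < 2 * s.card := by
      have : B ⊆ (s ∪ s').image fun τ => lab τ j := by
        intro b hb
        obtain ⟨f, rfl, hf⟩ := hf b hb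
        exact Finset.mem_image.2 ⟨node σ f, Finset.mem_union.2 hf, rfl⟩
      have h1 := (Finset.card_le_card this).trans Finset.card_image_le
      have h2 := Finset.card_union_le s s'
      omega
    have := c σ n j B hB fun b hb => ?_
    · simpa using this
    obtain ⟨f, rfl, hf | hf⟩ := hf b hb
    · exact ⟨f, rfl, by simpa using hf⟩
    · have h1 : (res N (par (node σ f)), j, lab (node σ f) j) ∈
          (s' ×ˢ Finset.range (2 * s'.card)).image
            fun p => (res N (par p.1), p.2, lab p.1 p.2) :=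
        Finset.mem_image.2 ⟨(node σ f, j), Finset.mem_product.2
          ⟨hf, Finset.mem_range.2 (by rw [← hc]; exact hj)⟩, rfl⟩
      rw [← hD] at h1
      obtain ⟨⟨τ, k⟩, h2, h3⟩ := Finset.mem_image.1 h1
      simp only [Prod.mk.injEq] at h3
      obtain ⟨e1, rfl, e3⟩ := h3
      have hτ := (Finset.mem_product.1 h2).1
      have e4 : par τ = node σ 0 :=
        hi (Finset.mem_coe.2 (Finset.mem_image_of_mem _ hτ))
          (Finset.mem_coe.2 (Finset.mem_image.2 ⟨_, hf₀, rfl⟩)) e1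
      refine ⟨lab τ, e3, ?_⟩
      rw [← eq_of_par e4]
      simpa using hτ
  · right
    have := c' σ n j B hB fun b hb => ?_
    · simpa using this
    obtain ⟨f, rfl, hf | hf⟩ := hf b hb
    · exact (hex ⟨f, hf⟩).elim
    · exact ⟨f, rfl, by simpa using hf⟩

open Classical in
theorem typ_disj {N N' : ℕ} {s t s' t' : Finset Tr} (h : typ N s t = typ N' s' t')
    (hi : InjOn (res N) (s ∪ t : Finset Tr)) (hd : Disjoint s t) : Disjoint s' t := by
  simp only [typ, Prod.mk.injEq] at h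
  obtain ⟨rfl, -, h1, -, -⟩ := h
  rw [Finset.disjoint_left] at hd ⊢
  intro τ h2 h3
  have : res N τ ∈ s.image (res N) := by rw [h1]; exact Finset.mem_image_of_mem _ h2
  obtain ⟨a, ha, e⟩ := Finset.mem_image.1 this
  have := hi (Finset.mem_coe.2 (Finset.mem_union_left _ ha))
    (Finset.mem_coe.2 (Finset.mem_union_right _ h3)) e
  exact hd ha (this ▸ h3)

open Classical in
theorem ccc (𝒰 : Set (Set Fin_pts)) (h : ∀ U ∈ 𝒰, IsOpen U ∧ U.Nonempty)
    (hd : 𝒰.PairwiseDisjoint id) : 𝒰.Countable := by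
  have key : ∀ U : 𝒰, ∃ (N : ℕ) (s t : Finset Tr), Disjoint s t ∧
      InjOn (res N) (s ∪ t : Finset Tr) ∧ InjOn (res N) (s.image par : Finset Tr) ∧
      (Cl fun τ => decide (τ ∈ s)) ∧
      ∀ z : Fin_pts, (∀ τ ∈ s, z.1.1 τ = true) → (∀ τ ∈ t, z.1.1 τ = false) → z ∈ U.1 := by
    rintro ⟨U, hU⟩
    obtain ⟨hO, y, hy⟩ := h U hU
    obtain ⟨O, h1, rfl⟩ := isOpen_induced_iff.1 hO
    obtain ⟨F, hF⟩ := basic_nhds h1 hy
    have hfin : {τ | y.1.1 τ = true}.Finite := y.2
    set s := hfin.toFinset with hs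
    have hmem : ∀ τ, τ ∈ s ↔ y.1.1 τ = true := fun τ => by simp [hs]
    obtain ⟨N, hN⟩ := exists_res_injOn ((s ∪ (F \ s)) ∪ s.image par)
    refine ⟨N, s, F \ s, Finset.disjoint_sdiff, hN.mono ?_, hN.mono ?_, ?_, ?_⟩
    · exact Finset.coe_subset.2 Finset.subset_union_left
    · exact Finset.coe_subset.2 Finset.subset_union_right
    · have : (fun τ => decide (τ ∈ s)) = y.1.1 := by
        funext τ
        simp [hmem]
      rw [this]
      exact y.1.2
    · intro z z1 z2
      refine hF z.1 fun τ hτ => ?_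
      by_cases hτs : τ ∈ s
      · rw [z1 τ hτs, (hmem τ).1 hτs]
      · rw [z2 τ (Finset.mem_sdiff.2 ⟨hτ, hτs⟩)]
        simpa [hmem] using hτs
  choose N s t k1 k2 k3 k4 k5 using key
  have hinj : Function.Injective fun U : 𝒰 => typ (N U) (s U) (t U) := by
    intro U V hUV
    by_contra hne
    have hdis := hd U.2 V.2 (fun e => hne (Subtype.ext e))
    let z : Fin_pts := ⟨⟨fun τ => decide (τ ∈ s U ∪ s V), union_Cl hUV (k3 U) (k4 U) (k4 V)⟩,
      (s U ∪ s V).finite_toSet.subset fun τ hτ => by simpa using hτ⟩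
    have d1 := typ_disj hUV (k2 U) (k1 U)
    have d2 := typ_disj hUV.symm (k2 V) (k1 V)
    have z1 : z ∈ U.1 := k5 U z (fun τ hτ => by simp [z, hτ]) fun τ hτ => by
      simp [z, Finset.disjoint_right.1 (k1 U) hτ, Finset.disjoint_right.1 d1 hτ]
    have z2 : z ∈ V.1 := k5 V z (fun τ hτ => by simp [z, hτ]) fun τ hτ => by
      simp [z, Finset.disjoint_right.1 (k1 V) hτ, Finset.disjoint_right.1 d2 hτ]
    exact Set.disjoint_left.1 hdis z1 z2
  exact Set.countable_coe_iff.1 hinj.countable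

theorem isClopen_V (τ : Tr) : IsClopen {y : Sp | y.1 τ = true} :=
  (isClopen_eval τ).preimage continuous_subtype_val

theorem avoids [MeasurableSpace Sp] [BorelSpace Sp] (μ : Measure Sp) [IsProbabilityMeasure μ]
    (hreg : μ {pt} = ⨅ (U : Set Sp) (_ : {pt} ⊆ U) (_ : IsOpen U), μ U) (h0 : μ {pt} = 0) :
    pt ∉ ⋂₀ {C : Set Sp | IsClosed C ∧ μ C = 1} := by
  intro hs
  have hO : ∀ n : ℕ, ∃ F : Finset Tr, μ {y : Sp | ∀ τ ∈ F, y.1 τ = true} < ((n : ENNReal) + 1)⁻¹ := by
    intro n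
    have : (⨅ (U : Set Sp) (_ : {pt} ⊆ U) (_ : IsOpen U), μ U) < ((n : ENNReal) + 1)⁻¹ := by
      rw [← hreg, h0]
      exact ENNReal.inv_pos.2 (by simp)
    simp only [iInf_lt_iff] at this
    obtain ⟨U, h1, h2, h3⟩ := this
    obtain ⟨F, hF⟩ := basic_nhds h2 (h1 rfl)
    exact ⟨F, lt_of_le_of_lt (measure_mono fun y hy => hF y hy) h3⟩
  choose F hF using hO
  have hc : (insert base (⋃ n, (F n : Set Tr))).Countable :=
    (countable_iUnion fun n => (F n).countable_toSet).insert _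
  obtain ⟨σ, hσ⟩ := hc.exists_eq_range (insert_nonempty _ _)
  have hZ : μ {y : Sp | ∀ n, y.1 (σ n) = true} = 0 := by
    by_contra hne
    obtain ⟨n, hn⟩ := ENNReal.exists_inv_nat_lt hne
    have h1 : μ {y : Sp | ∀ n, y.1 (σ n) = true} ≤ μ {y : Sp | ∀ τ ∈ F n, y.1 τ = true} := by
      refine measure_mono fun y hy τ hτ => ?_
      have : τ ∈ range σ := hσ ▸ mem_insert_of_mem _ (mem_iUnion.2 ⟨n, hτ⟩)
      obtain ⟨k, rfl⟩ := this
      exact hy k
    have h2 : ((n : ENNReal) + 1)⁻¹ ≤ (n : ENNReal)⁻¹ := ENNReal.inv_le_inv.2 le_self_add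
    exact lt_irrefl _ (hn.trans_le (h1.trans ((hF n).le.trans h2)))
  let V : (ℕ → ℕ) → Set Sp := fun f => {y : Sp | y.1 (node σ f) = true}
  have hV : ∀ f, μ (V f) ≠ 0 := by
    intro f hf
    have h1 : μ (V f)ᶜ = 1 := (prob_compl_eq_one_iff (isClopen_V _).isOpen.measurableSet).2 hf
    exact hs (V f)ᶜ ⟨(isClopen_V _).isOpen.isClosed_compl, h1⟩ rfl
  have hk : ∃ k : ℕ, ((fun f : ℕ → ℕ => f k) '' {f | (k : ENNReal)⁻¹ < μ (V f)}).Infinite := by
    by_contra hcon
    push Not at hcon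
    choose g hg using fun k => (hcon k).exists_notMem
    obtain ⟨k, hk⟩ := ENNReal.exists_inv_nat_lt (hV g)
    exact hg k ⟨g, hk, rfl⟩
  obtain ⟨k, hk⟩ := hk
  choose g g1 g2 using fun i : ℕ => (hk.natEmbedding _ i).2
  have ginj : Function.Injective fun i => g i k := by
    intro a b hab
    simp only [g2] at hab
    exact (hk.natEmbedding _).injective (Subtype.ext hab)
  let W : ℕ → Set Sp := fun N => ⋃ i ≥ N, V (g i)
  have hW : Antitone W := fun a b hab => biUnion_subset_biUnion_left fun i hi => le_trans hab hi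
  have hWm : ∀ N, NullMeasurableSet (W N) μ := fun N =>
    (isOpen_biUnion fun i _ => (isClopen_V _).isOpen).measurableSet.nullMeasurableSet
  have h1 : μ (⋂ N, W N) = ⨅ N, μ (W N) := hW.measure_iInter hWm ⟨0, measure_ne_top _ _⟩
  have h2 : (k : ENNReal)⁻¹ ≤ μ (⋂ N, W N) := by
    rw [h1]
    exact le_iInf fun N => (g1 N).le.trans (measure_mono (subset_biUnion_of_mem (u := fun i => V (g i))
      (show N ∈ {i | i ≥ N} from le_refl N)))
  have h3 : (⋂ N, W N) ⊆ {y : Sp | ∀ n, y.1 (σ n) = true} := by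
    intro y hy n
    have hinf : {i | y ∈ V (g i)}.Infinite := by
      refine infinite_of_forall_exists_gt fun N => ?_
      obtain ⟨i, hi, hi'⟩ := mem_iUnion₂.1 (mem_iInter.1 hy (N + 1))
      exact ⟨i, hi', hi⟩
    obtain ⟨I, hI, hcard⟩ := hinf.exists_subset_card_eq (k + n + 1)
    refine y.2 σ n k (I.image fun i => g i k) ?_ ?_
    · rw [Finset.card_image_of_injective _ ginj, hcard]; omega
    · intro b hb
      obtain ⟨i, hi, rfl⟩ := Finset.mem_image.1 hb
      exact ⟨g i, rfl, hI hi⟩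
  have h4 := h2.trans ((measure_mono h3).trans hZ.le)
  simp at h4

theorem main : ∃ (X : Type) (_ : TopologicalSpace X) (_ : CompactSpace X) (_ : T2Space X)
    (_ : MeasurableSpace X) (_ : BorelSpace X) (x : X),
    (∀ μ : Measure X, IsProbabilityMeasure μ →
      (∀ B : Set X, MeasurableSet B →
        μ B = ⨆ (K : Set X) (_ : K ⊆ B) (_ : IsCompact K), μ K) →
      (∀ B : Set X, MeasurableSet B →
        μ B = ⨅ (U : Set X) (_ : B ⊆ U) (_ : IsOpen U), μ U) →
      μ {x} = 0 → x ∉ ⋂₀ {C : Set X | IsClosed C ∧ μ C = 1}) ∧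
    ¬ (∀ Y : Set X,
      (∀ 𝒰 : Set (Set Y), (∀ U ∈ 𝒰, IsOpen U ∧ U.Nonempty) → 𝒰.PairwiseDisjoint id →
        𝒰.Countable) → x ∉ Y → x ∉ closure Y) := by
  borelize Sp
  refine ⟨Sp, inferInstance, inferInstance, inferInstance, inferInstance, inferInstance, pt, ?_, ?_⟩
  · intro μ _ _ h2 h0
    exact avoids μ (h2 _ (measurableSet_singleton _)) h0
  · intro h
    exact h Fin_pts ccc pt_notMem pt_mem_closure

end Pool.Agent.P.MP_843a88_gt
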