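import Mathlib

set_option autoImplicit false

namespace Pool.Agent.P.MP_843a88_gt

/-- the index type: well-founded countably branching trees with labels in Baire space -/
inductive Tr : Type
  | base : Tr
  | node : (ℕ → Tr) → (ℕ → ℕ) → Tr

namespace Tr

noncomputable def rank : Tr → Ordinal.{0}
  | base => 0
  | node σ _ => ⨆ n, (rank (σ n) + 1)

theorem rank_lt (σ : ℕ → Tr) (f : ℕ → ℕ) (n : ℕ) : rank (σ n) < rank (node σ f) := by
  rw [rank]
  exact lt_of_lt_of_le (lt_add_one _) (Ordinal.le_iSup (fun n => rank (σ n) + 1) n)

def par : Tr → Tr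
  | base => base
  | node σ _ => node σ 0

def lab : Tr → ℕ → ℕ
  | base => 0
  | node _ f => f

def kid : Tr → ℕ → Tr
  | base => fun _ => base
  | node σ _ => σ

theorem rank_par (τ : Tr) : rank (par τ) = rank τ := by cases τ <;> rfl

theorem eq_of_par {τ : Tr} {σ : ℕ → Tr} (h : par τ = node σ 0) : τ = node σ (lab τ) := by
  cases τ with
  | base => cases h
  | node σ' f => simp only [par, node.injEq, and_true] at h; rw [h]; rfl

def code : Tr → List ℕ → ℕ
  | base, _ => 0
  | node _ _, [] => 1
  | node _ f, (0 :: l) => f l.length
  | node σ _, ((n + 1) :: l) => code (σ n) l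

theorem code_inj : Function.Injective code := by
  intro a
  induction a with
  | base =>
    intro b h
    cases b with
    | base => rfl
    | node σ f => have := congrFun h []; simp [code] at this
  | node σ f ih =>
    intro b h
    cases b with
    | base => have := congrFun h []; simp [code] at this
    | node σ' f' =>
      have h1 : f = f' := by
        funext k
        have := congrFun h (0 :: List.replicate k 0)
        simpa [code] using this
      have h2 : σ = σ' := by
        funext n
        apply ih n
        funext l
        have := congrFun h ((n + 1) :: l)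
        simpa [code] using this
      rw [h1, h2]

/-- finite approximations of the code -/
noncomputable def res (N : ℕ) (τ : Tr) : List ℕ :=
  (List.range N).map fun i => code τ (Denumerable.ofNat (List ℕ) i)

theorem res_eq {N : ℕ} {a b : Tr} (h : res N a = res N b) (i : ℕ) (hi : i < N) :
    code a (Denumerable.ofNat (List ℕ) i) = code b (Denumerable.ofNat (List ℕ) i) :=
  (List.map_inj_left.1 h) i (List.mem_range.2 hi)

theorem eventually_res_ne {a b : Tr} (h : a ≠ b) : ∀ᶠ N in Filter.atTop, res N a ≠ res N b := by
  obtain ⟨l, hl⟩ := Function.ne_iff.1 (code_inj.ne h)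
  filter_upwards [Filter.eventually_gt_atTop (Encodable.encode l)] with N hN hres
  have := res_eq hres _ hN
  rw [Denumerable.ofNat_encode] at this
  exact hl this

theorem exists_res_injOn (s : Finset Tr) : ∃ N, Set.InjOn (res N) s := by
  have : ∀ᶠ N in Filter.atTop, ∀ a ∈ s, ∀ b ∈ s, res N a = res N b → a = b := by
    rw [Filter.eventually_all_finset]
    intro a _
    rw [Filter.eventually_all_finset]
    intro b _
    by_cases h : a = b
    · exact Filter.Eventually.of_forall fun _ _ => h
    · filter_upwards [eventually_res_ne h] with N hN hres using (hN hres).elim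
  obtain ⟨N, hN⟩ := this.exists
  exact ⟨N, fun a ha b hb h => hN a ha b hb h⟩

instance : Infinite Tr :=
  Infinite.of_injective (fun k : ℕ => node (fun _ => base) (fun _ => k)) fun a b h => by
    simp only [node.injEq, true_and] at h
    exact congrFun h 0

open Classical in
/-- every finite set lies in a finite saturated set -/
theorem exists_sat (α : Ordinal.{0}) : ∀ s : Finset Tr, (∀ τ ∈ s, rank τ < α) →
    ∃ H : Finset Tr, s ⊆ H ∧ (∀ τ ∈ H, rank τ < α) ∧
      ∀ σ n, n < (H.filter fun τ => par τ = node σ 0).card → σ n ∈ H := by
  induction α using WellFoundedLT.induction with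
  | ind α ih =>
    intro s hs
    rcases s.eq_empty_or_nonempty with rfl | hne
    · exact ⟨∅, le_rfl, by simp, by simp⟩
    obtain ⟨τ₀, h₀, hmax⟩ := s.exists_max_image rank hne
    set β := rank τ₀ with hβ
    let top := s.filter fun τ => rank τ = β
    let low := s.filter (fun τ => rank τ < β) ∪
      ((top.filter fun τ => τ ≠ base) ×ˢ Finset.range top.card).image fun p => kid p.1 p.2
    have hlow : ∀ τ ∈ low, rank τ < β := by
      intro τ hτ
      rcases Finset.mem_union.1 hτ with h | h
      · exact (Finset.mem_filter.1 h).2
      · obtain ⟨⟨a, k⟩, h1, rfl⟩ := Finset.mem_image.1 h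
        obtain ⟨h2, -⟩ := Finset.mem_product.1 h1
        obtain ⟨h3, h4⟩ := Finset.mem_filter.1 h2
        have h5 := (Finset.mem_filter.1 h3).2
        cases a with
        | base => exact (h4 rfl).elim
        | node σ f => rw [← h5]; exact rank_lt σ f k
    obtain ⟨H, H1, H2, H3⟩ := ih β (hs τ₀ h₀) low hlow
    refine ⟨H ∪ top, ?_, ?_, ?_⟩
    · intro τ hτ
      rcases (hmax τ hτ).lt_or_eq with h | h
      · exact Finset.mem_union_left _ (H1 (Finset.mem_union_left _ (Finset.mem_filter.2 ⟨hτ, h⟩)))
      · exact Finset.mem_union_right _ (Finset.mem_filter.2 ⟨hτ, h⟩)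
    · intro τ hτ
      rcases Finset.mem_union.1 hτ with h | h
      · exact (H2 τ h).trans (hs τ₀ h₀)
      · exact hs τ (Finset.mem_filter.1 h).1
    · intro σ n hn
      apply Finset.mem_union_left
      by_cases hr : rank (node σ 0) = β
      · have hsub : ((H ∪ top).filter fun τ => par τ = node σ 0) ⊆ top := by
          intro τ hτ
          obtain ⟨h1, h2⟩ := Finset.mem_filter.1 hτ
          rcases Finset.mem_union.1 h1 with h | h
          · have := H2 τ h
            rw [← rank_par, h2, hr] at this
            exact (lt_irrefl _ this).elim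
          · exact h
        obtain ⟨τ, hτ⟩ := Finset.card_pos.1 (lt_of_le_of_lt (Nat.zero_le n) hn)
        have h1 := eq_of_par (Finset.mem_filter.1 hτ).2
        apply H1
        refine Finset.mem_union_right _ (Finset.mem_image.2 ⟨(τ, n), Finset.mem_product.2
          ⟨Finset.mem_filter.2 ⟨hsub hτ, ?_⟩, Finset.mem_range.2
            (hn.trans_le (Finset.card_le_card hsub))⟩, ?_⟩)
        · rw [h1]; exact fun h => by cases h
        · rw [h1]; rfl
      · apply H3
        refine hn.trans_le (Finset.card_le_card ?_)
        intro τ hτ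
        obtain ⟨h1, h2⟩ := Finset.mem_filter.1 hτ
        rcases Finset.mem_union.1 h1 with h | h
        · exact Finset.mem_filter.2 ⟨h, h2⟩
        · have := (Finset.mem_filter.1 h).2
          rw [← rank_par, h2] at this
          exact (hr this).elim

open Classical in
theorem exists_sat' (s : Finset Tr) : ∃ H : Finset Tr, s ⊆ H ∧
    ∀ σ n, n < (H.filter fun τ => par τ = node σ 0).card → σ n ∈ H := by
  obtain ⟨H, h1, -, h3⟩ := exists_sat (s.sup rank + 1) s fun τ hτ =>
    lt_of_le_of_lt (Finset.le_sup hτ) (lt_add_one _)
  exact ⟨H, h1, h3⟩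

end Tr

end Pool.Agent.P.MP_843a88_gt
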